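import Pool.Agent.H216R3.StGrp

/-!
A Steiner system `S(1449,9,2)`: a difference family over `ℤ_2^3 × ℤ_181` relative to `ℤ_2^3`, with one
fixed point.  The twenty base blocks are the images of two blocks under a group of multipliers of
order 15 (generated by the multiplication by a primitive cube root of unity on `𝔽_4 × 𝔽_181`, where
`ℤ_2^3 = ℤ_2 × 𝔽_4`, and by a multiplier of order 5 of `𝔽_181`): the first block has fifteen images, the
second one is fixed by the element of order 3 and has five.
-/

set_option autoImplicit false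

namespace Pool.Agent.TH579.SN

open Pool.Agent.H816R2.KM2 Pool.Agent.H216R3.StGrp

/-- base blocks over `ℤ_2^3 × ℤ_181`, coded as `181 * i + x` -/
def g181 : List (List ℕ) :=
  [[0, 1, 220, 238, 255, 606, 855, 892, 1387],
   [0, 59, 310, 286, 203, 640, 851, 862, 1288],
   [0, 42, 190, 222, 212, 655, 796, 902, 1420],
   [0, 125, 350, 247, 200, 635, 809, 728, 1425],
   [0, 135, 197, 274, 216, 722, 852, 779, 1358],
   [0, 48, 424, 383, 475, 309, 858, 824, 1054],
   [0, 117, 400, 515, 513, 312, 847, 832, 1008],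
   [0, 25, 432, 520, 402, 308, 741, 761, 1009],
   [0, 27, 510, 453, 369, 253, 822, 735, 1068],
   [0, 145, 406, 482, 413, 266, 895, 830, 929],
   [0, 132, 623, 646, 718, 533, 821, 818, 1179],
   [0, 5, 557, 647, 551, 496, 836, 840, 1143],
   [0, 114, 645, 706, 653, 485, 816, 871, 1191],
   [0, 29, 588, 567, 698, 379, 903, 890, 1127],
   [0, 82, 664, 692, 638, 460, 787, 744, 1152],
   [174, 26, 162, 495, 592, 361, 1037, 1087, 1315],
   [130, 86, 146, 426, 719, 303, 910, 1145, 1384],
   [68, 6, 107, 518, 610, 320, 1019, 1128, 1292],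
   [30, 173, 159, 516, 695, 237, 934, 1211, 1294],
   [141, 71, 150, 398, 642, 227, 987, 1221, 1412]]

theorem s1449 : ∃ 𝓑 : Set (Finset (Fin 1449)), IsS2 (Fin 1449) 9 𝓑 :=
  main (ofCoded (codedP 2 (codedP 2 (codedZ 2)))) (codedZ 181) 9 1 1449 (by decide) g181
    [[0, 1, 2, 3, 4, 5, 6, 7, 8]] [] (by decide +kernel) (by decide +kernel)
    (by decide +kernel) (by decide +kernel) (coverB_spec (by decide +kernel))
    (by decide +kernel)

end Pool.Agent.TH579.SN
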